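import Pool.Agent.H632R2.PM.Circ

/-!
# Threshold functions and AC0[p] circuits whose inputs are subquadratic formulas
-/

namespace Pool.Agent.Results.MP_3586ff_lc.BottomFormulas

open H632.PM

theorem result (p : ℕ) (hp : p.Prime) (n w s d N v θ : ℕ) (hw : 1 ≤ w) (hv : v ≤ θ)
    (hθ : v + θ ≤ n + 1) (C : Circ p n w s d N) (i : Fin N)
    (hC : ∀ x : Fin n → Bool, C.val i x = true ↔ θ ≤ ones x) :
    v ^ 2 ≤ 243847994572800 * w ^ 2 * (s + 1) *
      (3 * p * (d + 2) * (Nat.log 2 N + Nat.log 2 n + 2)) ^ (4 * d + 4) :=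
  haveI : Fact p.Prime := ⟨hp⟩
  circ_bound hw C i hv hθ hC

end Pool.Agent.Results.MP_3586ff_lc.BottomFormulas
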