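import Mathlib
import Pool.Agent.H688R2.Sym.Defs
import Pool.Agent.H688R2.Sym.Avg

namespace H688R2.Sym

open Equiv

/-- Average-case lower bound: a circuit of any depth with AND, OR, NOT, `MOD_m` gates (and
thresholds up to `t`) that is invariant under all permutations of its `n` inputs and has at most
`n ^ (k / 2)` gates agrees with majority on hardly more than half of the `2 ^ n` inputs. -/
theorem _root_.Pool.Agent.Results.MP_3586ff_lc.SymmetricCorrelation.result
    (m t k : ℕ) (α Q : Type) [Fintype α] [Fintype Q] [MulAction (Perm α) Q] (C : Circuit α Q)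
    (hm : m ≠ 0) (hk : 1 ≤ k) (hC : C.Invariant α) (hG : C.ModGates m t)
    (hQ : Fintype.card Q ^ 2 ≤ Fintype.card α ^ k)
    (hn : 16 * (k + 1) * (k + 1) * (Nat.log 2 (Fintype.card α) + 1) ≤ Fintype.card α) :
    2 * Nat.card {x : α → Prop // C.val x C.out ↔ Majority x}
      ≤ 2 ^ Fintype.card α
        + (2 * m * k ^ m.primeFactors.card + 1) * (Fintype.card α).choose (Fintype.card α / 2)
        + 4 * ∑ w ∈ Finset.range (2 * k + t + 1), (Fintype.card α).choose w := by
  classical
  have key := majority_agree C hC hm hk hG hQ hn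
  have e : {x : α → Prop // C.val x C.out ↔ Majority x} ≃
      {y : Finset α // C.val (fun a => a ∈ y) C.out ↔ Majority (fun a => a ∈ y)} := by
    refine (Equiv.subtypeEquiv (p := fun x : α → Prop => C.val x C.out ↔ Majority x)
      (q := fun y : Finset α => C.val (fun a => a ∈ y) C.out ↔ Majority (fun a => a ∈ y))
      ⟨fun x => Finset.univ.filter x, fun y a => a ∈ y, ?_, ?_⟩ ?_)
    · intro x; funext a; simp
    · intro y; ext a; simp
    · intro x
      have : (fun a => a ∈ (Finset.univ.filter x)) = x := by funext a; simp
      show (C.val x C.out ↔ Majority x) ↔ (C.val (fun a => a ∈ (Finset.univ.filter x)) C.out ↔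
        Majority (fun a => a ∈ (Finset.univ.filter x)))
      rw [this]
  rw [Nat.card_congr e, Nat.card_eq_fintype_card, Fintype.card_subtype]
  exact key

end H688R2.Sym
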