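import Pool.Agent.H688R2.Cla.C1b
import Pool.Agent.H688R2.Cla.C2b
import Pool.Agent.H688R2.Cla.C4b
import Pool.Agent.H688R2.Cla.C5b
import Pool.Agent.H688R2.Cla.C6b
import Pool.Agent.H688R2.Cla.C7b
import Pool.Agent.H688R2.Cla.C8b
import Pool.Agent.H688R2.Cla.C9b
import Pool.Agent.H688R2.Cla.D1b
import Pool.Agent.H688R2.Cla.D2x
import Pool.Agent.H688R2.Cla.D3b
import Pool.Agent.H688R2.Cla.D4b
import Pool.Agent.H688R2.Cla.D5b
import Pool.Agent.H688R2.Cla.UPP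

namespace H688R2.Cla

open Equiv H688R2.Sym

/-
The proof of `D2` (file `D2x`) is by helper967.
-/

/-- **Classification of the symmetric functions computed by symmetric circuits with `AND`, `OR`,
`NOT`, `MOD_m` gates of any depth.** -/
theorem _root_.Pool.Agent.Results.MP_3586ff_lc.SymmetricFunctions.result :
    (∀ (m t k : ℕ) (α Q : Type) (_ : Fintype α) (_ : Fintype Q) (_ : MulAction (Perm α) Q)
      (C : Circuit α Q) (F : (α → Prop) → Prop),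
      m ≠ 0 → 1 ≤ k → C.Invariant α → C.ModGates m t → C.Computes F →
      Fintype.card Q ^ 2 ≤ Fintype.card α ^ k →
      16 * (k + 1) * (k + 1) * (Nat.log 2 (Fintype.card α) + 1) ≤ Fintype.card α →
      ∃ f : ℕ → Prop, (∀ x, F x ↔ f (wgt x)) ∧
        MidPeriodic f (Fintype.card α) (2 * k + t + 1)
          (m * ∏ p ∈ m.primeFactors, p ^ Nat.log p k)) ∧
    (∀ (m k L : ℕ) (α : Type) (_ : Fintype α) (f : ℕ → Prop), m ≠ 0 → 1 ≤ k →
      MidPeriodic f (Fintype.card α) L (∏ p ∈ m.primeFactors, p ^ (Nat.log p k + 1)) →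
      ∃ (Q : Type) (_ : Fintype Q) (_ : MulAction (Perm α) Q) (C : Circuit α Q),
        C.Invariant α ∧ C.ModGates m 1 ∧ (C.Computes fun x => f (wgt x)) ∧
        C.level C.out = 5 ∧
        Fintype.card Q ≤ 2 * (Fintype.card α + 1) ^ (k + L) + Fintype.card α +
          (m + 1) ^ 2 * (k + 1) + 4 * L + 3 + 2 * m * k ^ m.primeFactors.card) ∧
    (∀ f : ℕ → ℕ → Prop, (QuasiSym f ⊤ ↔ QuasiPer f) ∧ (QuasiSym f 5 ↔ QuasiPer f)) ∧
    (∀ f : ℕ → ℕ → Prop, (PolySym f ⊤ ↔ PolyPer f) ∧ (PolySym f 5 ↔ PolyPer f)) := by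
  have hU : UPP := UPP_holds
  have h1 : C1 := C1_holds'
  have h2 : C2 := C2_holds'
  have h3 : C3 := C3_holds' hU
  have h4 : C4 := C4_holds'
  have h5 : C5 := C5_holds' h4
  have h6 : C6 := C6_holds' h4
  have h7 : C7 := C7_holds' h6
  have h8 : C8 := C8_holds' h5 hU
  have h9 : C9 := C9_holds' h6 h7 h8 hU
  have d1 : D1 := D1_holds'
  have d2 : D2 := D2_holds d1
  have d3 : D3 := D3_holds' h1 h2 h3 h9 hU
  have d4 : D4 := D4_holds' d1
  have d5 : D5 := D5_holds' h1 h2 h3 h9 hU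
  have mono : ∀ (f : ℕ → ℕ → Prop) (m : ℕ) (s : ℕ → ℕ), SymCir f m 5 s → SymCir f m ⊤ s := by
    intro f m s h n hn
    obtain ⟨Q, i1, i2, C, a, b, c, _, e⟩ := h n hn
    exact ⟨Q, i1, i2, C, a, b, c, le_top, e⟩
  have mq : ∀ f, QuasiSym f 5 → QuasiSym f ⊤ := by
    rintro f ⟨m, c, e, hm, h⟩
    exact ⟨m, c, e, hm, mono f m _ h⟩
  have mp : ∀ f, PolySym f 5 → PolySym f ⊤ := by
    rintro f ⟨m, e, hm, h⟩
    exact ⟨m, e, hm, mono f m _ h⟩
  refine ⟨d1, ?_, fun f => ⟨⟨d2 f, fun h => mq f (d3 f h)⟩, ⟨fun h => d2 f (mq f h), d3 f⟩⟩,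
    fun f => ⟨⟨d4 f, fun h => mp f (d5 f h)⟩, ⟨fun h => d4 f (mp f h), d5 f⟩⟩⟩
  intro m k L α _ f hm hk hf
  exact ⟨CG α m k L (upPer m k), inferInstance, inferInstance, cir α m k L (upPer m k) f,
    h1 α _ m k L _ f, h2 α _ m k L _ f, h9 α _ m k L f hm hk hf, rfl, h3 α _ m k L hm hk⟩

end H688R2.Cla
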