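import Mathlib
import Pool.Agent.H688R2.Sym.Defs
import Pool.Agent.H688R2.Sym.NoPoly

namespace H688R2.Sym

open Equiv

/-- How symmetric can circuits with AND, OR, NOT, `MOD_m` gates for MAJORITY be?
1. Lower bound, for circuits of any depth and any action of the permutations of `α`.
2. Symmetrisation of arbitrary circuits.
3. Majority is in `ACC⁰` iff it has `ACC⁰` circuits that are symmetric on `(log n) ^ c` inputs, for
   every `c`.
4. This is impossible, even without any bound on the depth, if `c` exceeds `2` and the number of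
   prime factors of the modulus. -/
theorem _root_.Pool.Agent.Results.MP_3586ff_lc.SymmetricMajority.result :
    (∀ (m t k : ℕ) (α I Q : Type) (_ : Fintype α) (_ : Fintype I) (_ : Fintype Q)
      (_ : MulAction (Perm α) I) (_ : MulAction (Perm α) Q) (C : Circuit I Q),
      m ≠ 0 → 1 ≤ k → C.Invariant α → C.ModGates m t → C.Computes Majority →
      (∃ (i : I) (π : Perm α) (_ : DecidableEq α), Perm.sign π = 1 ∧ π • i ≠ i) →
      16 * (k + 1) * (k + t + 1) * (Nat.log 2 (Fintype.card α) + 1)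
        + 3 * m * k ^ m.primeFactors.card ≤ Fintype.card α →
      Fintype.card α ^ k < Fintype.card Q ^ 2) ∧
    (∀ (m t k : ℕ) (α M Q : Type) (_ : Fintype α) (_ : Fintype Q) (C : Circuit (α ⊕ M) Q)
      (F : (α ⊕ M → Prop) → Prop),
      m ≠ 0 → 1 ≤ t → 1 ≤ k → C.ModGates m t → C.Computes F →
      (∀ (π : Perm α) x, F (fun i => x (Sum.map π id i)) ↔ F x) →
      Fintype.card α < (k + 1) ^ m.primeFactors.card →
      ∃ (Q' : Type) (_ : Fintype Q') (_ : MulAction (Perm α) Q') (C' : Circuit (α ⊕ M) Q'),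
        (letI := moveLeft α M; C'.Invariant α) ∧ C'.ModGates m t ∧ C'.Computes F ∧
        C'.level C'.out ≤ C.level C.out + 5 ∧
        Fintype.card Q' ≤ (Fintype.card α + 1) ^ k + (m + 1) ^ 2 * (k + 1)
          + (Fintype.card α + 1) * (Fintype.card Q + 3)) ∧
    (MajACC0 ↔ ∀ c, SymMajACC0 c) ∧
    (∀ m c e : ℕ, m ≠ 0 → 3 ≤ c → m.primeFactors.card < c → ¬ SymMaj m c e) := by
  refine ⟨?_, ?_, majACC0_iff, not_symMaj⟩
  · intro m t k α I Q _ _ _ _ _ C hm hk h1 h2 h3 h4 h5
    obtain ⟨i, π, _, hs, hne⟩ := h4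
    exact majority_lower C h1 hm hk h2 h3 ⟨i, π, hs, hne⟩ h5
  · intro m t k α M Q _ _ C F hm ht hk h1 h2 h3 h4
    exact symmetrise C hm ht hk h1 F h3 h2 h4

end H688R2.Sym
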